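import Pool.Agent.X204.NQM

/-!
# Dimension four: at most eight hyperplanes of maximal relative projection constant

A four-dimensional real normed space `X` has at most eight three-dimensional subspaces `Y` with
`λ(Y, X) = 2 - 2 / 4 = 3 / 2`, and `ℝ ^ 4` with the maximum norm has exactly eight: `N(4) = 8`.
-/

set_option autoImplicit false

open Pool.Agent.X204.NQ

namespace Pool.Agent.Results.MP_026d7f_an.ExactValueFour

universe u

theorem result :
    (∀ (X : Type u) [NormedAddCommGroup X] [NormedSpace ℝ X], Module.finrank ℝ X = 4 →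
      (maxHyperplanes 4 X).Finite ∧ (maxHyperplanes 4 X).ncard ≤ 8) ∧
    (maxHyperplanes 4 (Fin 4 → ℝ)).ncard = 8 :=
  ⟨fun _ _ _ hX => four_upper hX, four_cube⟩

end Pool.Agent.Results.MP_026d7f_an.ExactValueFour
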