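import Pool.Agent.X204.NQJ

/-!
# Dimension three: at most four planes of maximal relative projection constant

A three-dimensional real normed space `X` has at most four two-dimensional subspaces `Y` with
`λ(Y, X) = 2 - 2 / 3 = 4 / 3`, and `ℝ ^ 3` with the maximum norm has exactly four: `N(3) = 4`.
-/

set_option autoImplicit false

open Pool.Agent.X204.NQ

namespace Pool.Agent.Results.MP_026d7f_an.ExactValueThree

universe u

theorem result :
    (∀ (X : Type u) [NormedAddCommGroup X] [NormedSpace ℝ X], Module.finrank ℝ X = 3 →
      (maxHyperplanes 3 X).Finite ∧ (maxHyperplanes 3 X).ncard ≤ 4) ∧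
    (maxHyperplanes 3 (Fin 3 → ℝ)).ncard = 4 :=
  ⟨fun _ _ _ hX => three_upper hX, three_cube⟩

end Pool.Agent.Results.MP_026d7f_an.ExactValueThree
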