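import Pool.Agent.X204.NQH

/-!
# Hyperplanes of maximal relative projection constant: bounds for their number

For every `n ≥ 3` and every real normed space `X` of dimension `n` the set of the hyperplanes `Y`
with `λ(Y, X) = 2 - 2 / n` is finite, and twice its number is at most
`(1 + n ^ 2 / (n - 2)) ^ n`.  The space `ℝ ^ n` with the maximum norm has at least `2 ^ (n - 1)`
such hyperplanes.
-/

set_option autoImplicit false

open Pool.Agent.X204.NQ

namespace Pool.Agent.Results.MP_026d7f_an.FiniteBound

universe u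

theorem result (n : ℕ) (hn : 3 ≤ n) :
    (∀ (X : Type u) [NormedAddCommGroup X] [NormedSpace ℝ X], Module.finrank ℝ X = n →
      (maxHyperplanes n X).Finite ∧
        2 * ((maxHyperplanes n X).ncard : ℝ) ≤ (1 + (n : ℝ) ^ 2 / (n - 2)) ^ n) ∧
    2 ^ (n - 1) ≤ (maxHyperplanes n (Fin n → ℝ)).ncard :=
  ⟨fun _ _ _ hX => upper hn hX, lower hn⟩

end Pool.Agent.Results.MP_026d7f_an.FiniteBound
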